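import Pool.Agent.Helper82.GP.Main
import Pool.Agent.Helper82.GreedyOne

/-!
The convergence in mean of the greedy lattice path weights under (A+) and (A-): true in every
dimension at least two, false in dimension one.
-/

open MeasureTheory ProbabilityTheory
open Pool.Agent.Helper82.Greedy

theorem Pool.Agent.Results.MP_18bc13_pr.AllDimensions.result :
    (∀ (Ω : Type*) [MeasurableSpace Ω] (P : Measure Ω) [IsProbabilityMeasure P] (d : ℕ), 2 ≤ d →
      ∀ X : (Fin d → ℤ) → Ω → ℝ, IsIID P d X → APlus P d (X 0) → AMinus P d (X 0) →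
        ∃ M : ℝ, ConvergesL1 P d X M) ∧
    ∃ (Ω : Type) (_ : MeasurableSpace Ω) (P : Measure Ω) (_ : IsProbabilityMeasure P)
      (X : (Fin 1 → ℤ) → Ω → ℝ), IsIID P 1 X ∧ APlus P 1 (X 0) ∧ AMinus P 1 (X 0) ∧
        ∀ M : ℝ, ¬ ConvergesL1 P 1 X M :=
  ⟨fun _ _ P _ d hd X h1 h2 h3 => Pool.Agent.Helper82.GP.main_pos P d hd X h1 h2 h3,
    Pool.Agent.Helper82.GreedyOne.main⟩
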